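import Pool.Agent.Helper58.LC.Goals

set_option autoImplicit false

open Classical Finset

namespace Pool.Agent.Helper2.LC.GPP

open Pool.Agent.Helper58.LC
open Filter Topology

/-- Small shifts keep the position of a point relative to a line. -/
theorem ev1 (a b x y : ℝ) (h : a * x + b ≠ y) : ∀ᶠ e in 𝓝[>] (0 : ℝ),
    (a * (x + e) + b < y ↔ a * x + b < y) ∧ a * (x + e) + b ≠ y := by
  have hc : Tendsto (fun e : ℝ => a * (x + e) + b) (𝓝[>] 0) (𝓝 (a * x + b)) := by
    have h1 : Continuous (fun e : ℝ => a * (x + e) + b) := by fun_prop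
    have h2 := h1.tendsto 0
    rw [add_zero] at h2
    exact h2.mono_left nhdsWithin_le_nhds
  rcases lt_or_gt_of_ne h with h1 | h1
  · filter_upwards [hc.eventually_lt_const h1] with e he
    exact ⟨⟨fun _ => h1, fun _ => he⟩, ne_of_lt he⟩
  · filter_upwards [hc.eventually_const_lt h1] with e he
    exact ⟨⟨fun h2 => absurd h2 (not_lt.mpr he.le), fun h2 => absurd h2 (not_lt.mpr h1.le)⟩,
      ne_of_gt he⟩

/-- Small shifts avoid one value. -/
theorem ev2 (a b a' b' x : ℝ) (h : a ≠ a') : ∀ᶠ e in 𝓝[>] (0 : ℝ),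
    a * (x + e) + b ≠ a' * (x + e) + b' := by
  have hne : ∀ v : ℝ, ∀ᶠ e in 𝓝[>] (0 : ℝ), e ≠ v := by
    intro v
    by_cases hv : v = 0
    · subst hv
      filter_upwards [self_mem_nhdsWithin] with e he
      exact ne_of_gt he
    · exact (isOpen_ne.eventually_mem (Ne.symm hv)).filter_mono nhdsWithin_le_nhds
  filter_upwards [hne ((b' - b) / (a - a') - x)] with e he h1
  apply he
  have h2 : a - a' ≠ 0 := sub_ne_zero.mpr h
  have h3 : (a - a') * (x + e) = b' - b := by linarith
  rw [← h3]
  field_simp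
  ring

theorem t : GPP := by
  intro I J _ _ x y α β hs ho
  obtain ⟨M, hM⟩ := (Set.finite_range α).bddAbove
  have hM' : ∀ j, α j ≤ M := fun j => hM ⟨j, rfl⟩
  obtain ⟨M1, hM1⟩ := (Set.finite_range fun i => y i - (M + 1) * x i).bddAbove
  have hM1' : ∀ i, y i - (M + 1) * x i ≤ M1 := fun i => hM1 ⟨i, rfl⟩
  obtain ⟨M2, hM2⟩ := (Set.finite_range fun i => y i - (M + 2) * x i).bddBelow
  have hM2' : ∀ i, M2 ≤ y i - (M + 2) * x i := fun i => hM2 ⟨i, rfl⟩
  set A : J ⊕ Bool → ℝ := Sum.elim α (fun b => if b then M + 1 else M + 2) with hA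
  set B : J ⊕ Bool → ℝ := Sum.elim β (fun b => if b then M1 + 1 else M2 - 1) with hB
  have hslope : ∀ j k, A j = A k → j = k := by
    intro j k h
    rcases j with j | j <;> rcases k with k | k
    · simp only [hA, Sum.elim_inl] at h
      rw [hs j k h]
    · exfalso
      have := hM' j
      simp only [hA, Sum.elim_inl, Sum.elim_inr] at h
      split_ifs at h <;> linarith
    · exfalso
      have := hM' k
      simp only [hA, Sum.elim_inl, Sum.elim_inr] at h
      split_ifs at h <;> linarith
    · simp only [hA, Sum.elim_inr] at h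
      rcases j with _ | _ <;> rcases k with _ | _ <;> simp at h ⊢
  have hup : ∀ i, y i < A (Sum.inr true) * x i + B (Sum.inr true) := by
    intro i
    have := hM1' i
    simp only [hA, hB, Sum.elim_inr, if_true]
    linarith
  have hdn : ∀ i, A (Sum.inr false) * x i + B (Sum.inr false) < y i := by
    intro i
    have := hM2' i
    simp only [hA, hB, Sum.elim_inr]
    simp
    linarith
  have hoff : ∀ i j, A j * x i + B j ≠ y i := by
    intro i j
    rcases j with j | j
    · exact ho i j
    · rcases j with _ | _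
      · exact (hdn i).ne
      · exact (hup i).ne'
  have E1 : ∀ᶠ e in 𝓝[>] (0 : ℝ), ∀ i j,
      (A j * (x i + e) + B j < y i ↔ A j * x i + B j < y i) ∧ A j * (x i + e) + B j ≠ y i :=
    eventually_all.mpr fun i => eventually_all.mpr fun j => ev1 _ _ _ _ (hoff i j)
  have E2 : ∀ᶠ e in 𝓝[>] (0 : ℝ), ∀ i j k, j ≠ k →
      A j * (x i + e) + B j ≠ A k * (x i + e) + B k :=
    eventually_all.mpr fun i => eventually_all.mpr fun j => eventually_all.mpr fun k => by
      by_cases hjk : j = k
      · exact Eventually.of_forall fun e h => absurd hjk h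
      · filter_upwards [ev2 (A j) (B j) (A k) (B k) (x i) fun h => hjk (hslope j k h)] with e he _
        exact he
  obtain ⟨e, h1, h2⟩ := (E1.and E2).exists
  refine ⟨⟨fun i => x i + e, y, A, B, Sum.inr true, Sum.inr false, hslope, fun i j => (h1 i j).2,
    h2, ?_, ?_⟩, ?_⟩
  · intro i
    have h3 := (h1 i (Sum.inr true)).1
    have h4 := (h1 i (Sum.inr true)).2
    rcases lt_or_gt_of_ne h4 with h5 | h5
    · exact absurd (h3.mp h5) (not_lt.mpr (hup i).le)
    · exact h5
  · intro i
    exact ((h1 i (Sum.inr false)).1).mpr (hdn i)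
  · intro i j
    exact (h1 i (Sum.inl j)).1

end Pool.Agent.Helper2.LC.GPP
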